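import Pool.Agent.Helper17.R5.Sheet
import Pool.Agent.Helper97.RK.Fin5

/-! # Row FIN of the rank five sheet (MP_798d7d_nt): from sizes `N` to heights `H`. -/

set_option autoImplicit false

namespace Pool.Helper17.R5

open Pool.Agent.Helper97.RK (cur NS fin_H fin_nsfin)

/-- the pairs of `RS C N` have height at most `27 C³ N¹²` -/
theorem rs_subset (C : ℤ) (hC : 1 ≤ C) (N : ℕ) :
    RS C N ⊆ NS 5 ((27 * C.toNat ^ 3 * N ^ 12 : ℕ) : ℝ) := by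
  rintro ⟨A, B⟩ ⟨h1, h2, h3, h4, h5⟩
  simp only at h1 h2 h3 h4 h5
  refine ⟨h1, h2, ?_, ?_⟩
  · have hCn : ((C.toNat : ℕ) : ℤ) = C := Int.toNat_of_nonneg (by linarith)
    have hN : (0 : ℤ) ≤ N := by positivity
    have hz : (max (4 * |A| ^ 3) (27 * B ^ 2) : ℤ) ≤ 27 * C ^ 3 * (N : ℤ) ^ 12 := by
      apply max_le
      · have e1 : |A| ^ 3 ≤ (C * (N : ℤ) ^ 4) ^ 3 := pow_le_pow_left₀ (abs_nonneg A) h3 3
        have e2 : 0 ≤ C ^ 3 * (N : ℤ) ^ 12 := by positivity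
        nlinarith [e1, e2]
      · have e1 : B ^ 2 ≤ (C * (N : ℤ) ^ 6) ^ 2 := by
          rw [← sq_abs B]
          exact pow_le_pow_left₀ (abs_nonneg B) h4 2
        have e2 : (C * (N : ℤ) ^ 6) ^ 2 ≤ C ^ 3 * (N : ℤ) ^ 12 := by
          have e3 : 0 ≤ (C - 1) * (C ^ 2 * (N : ℤ) ^ 12) :=
            mul_nonneg (by linarith) (by positivity)
          nlinarith [e3]
        nlinarith [e1, e2]
    have hz' : ((max (4 * |A| ^ 3) (27 * B ^ 2) : ℤ) : ℝ) ≤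
        ((27 * C ^ 3 * (N : ℤ) ^ 12 : ℤ) : ℝ) := by exact_mod_cast hz
    refine hz'.trans (le_of_eq ?_)
    have : ((27 * C.toNat ^ 3 * N ^ 12 : ℕ) : ℤ) = 27 * C ^ 3 * (N : ℤ) ^ 12 := by
      push_cast
      rw [Int.toNat_of_nonneg (by linarith : (0 : ℤ) ≤ C)]
    exact_mod_cast this.symm
  · simpa using h5

/-- FIN. -/
theorem st_FIN (h : ST_FIN1) : ST_FIN := by
  obtain ⟨C, hC, hF⟩ := h
  have key := fin_H 5 (by norm_num) (27 * C.toNat ^ 3) (by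
    have : 0 < C.toNat := by omega
    have h3 : 0 < C.toNat ^ 3 := by positivity
    omega) (fun ε hε => by
      obtain ⟨c, hc, N0, h0⟩ := hF ε hε
      refine ⟨1 / c, by positivity, N0 + 1, fun n hn => ?_⟩
      have hn1 : (0 : ℝ) < n := by
        have : 0 < n := by omega
        exact_mod_cast this
      have h1 := h0 n (by omega)
      have h2 : ((RS C n).ncard : ℝ) ≤
          ((NS 5 ((27 * C.toNat ^ 3 * n ^ 12 : ℕ) : ℝ)).ncard : ℝ) := by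
        exact_mod_cast Set.ncard_le_ncard (rs_subset C hC n) (fin_nsfin _ _)
      have h3 : (n : ℝ) ^ (10 - 5) = (n : ℝ) ^ ε * (n : ℝ) ^ (5 - ε) := by
        rw [← Real.rpow_add hn1, ← Real.rpow_natCast]
        congr 1
        push_cast
        ring
      rw [h3]
      have h4 : (0 : ℝ) < (n : ℝ) ^ ε := Real.rpow_pos_of_pos hn1 _
      have h5 : (n : ℝ) ^ (5 - ε) ≤
          1 / c * ((NS 5 ((27 * C.toNat ^ 3 * n ^ 12 : ℕ) : ℝ)).ncard : ℝ) := by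
        rw [one_div, ← div_eq_inv_mul, le_div_iff₀ hc]
        linarith
      calc (n : ℝ) ^ ε * (n : ℝ) ^ (5 - ε) ≤ (n : ℝ) ^ ε *
            (1 / c * ((NS 5 ((27 * C.toNat ^ 3 * n ^ 12 : ℕ) : ℝ)).ncard : ℝ)) :=
            mul_le_mul_of_nonneg_left h5 h4.le
        _ = _ := by ring)
  intro ε hε
  obtain ⟨H0, hH⟩ := key ε hε
  refine ⟨H0, fun H hHH => ?_⟩
  have h1 := hH H hHH
  have e : (10 - ((5 : ℕ) : ℝ)) / 12 - ε = (5 : ℝ) / 12 - ε := by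
    norm_num
  rw [e] at h1
  have e2 : NS 5 H = {p : ℤ × ℤ |
      4 * p.1 ^ 3 + 27 * p.2 ^ 2 ≠ 0 ∧
      (∀ q : ℕ, q.Prime → ¬ ((q : ℤ) ^ 4 ∣ p.1 ∧ (q : ℤ) ^ 6 ∣ p.2)) ∧
      (((max (4 * |p.1| ^ 3) (27 * p.2 ^ 2) : ℤ) : ℝ) ≤ H) ∧
      (5 : Cardinal) ≤ Module.rank ℤ
        (WeierstrassCurve.toAffine
          (⟨0, 0, 0, (p.1 : ℚ), (p.2 : ℚ)⟩ : WeierstrassCurve ℚ)).Point} := by
    ext p
    simp only [NS, cur, Nat.cast_ofNat]
    exact Iff.rfl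
  rw [e2] at h1
  exact h1

end Pool.Helper17.R5
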